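import Pool.Agent.MVS.Stmts
import Pool.Agent.Helper36_RF.Chr

/-!
# Row EXB of the squad MVS (problem MP_33f2b9_gt): the exponential map
-/

noncomputable section

open scoped ContDiff Topology RealInnerProductSpace
open Set MeasureTheory

namespace Pool.Agent.MVS.H86

open Pool.Agent.RF Pool.Agent.MVS

/-- the domain of the local flow with constant `C` -/
def Good (G : E5 → Bil E5) (C : ℝ) (z : E5 × E5) : Prop :=
  Real.exp (-C) < ‖z.1‖ ∧ ‖z.1‖ < Real.exp C ∧ G z.1 z.2 z.2 < C ^ 2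

theorem good_exists (G : E5 → Bil E5) (z : E5 × E5) (hz : z.1 ≠ 0) : ∃ C, 0 < C ∧ Good G C z := by
  have hn : 0 < ‖z.1‖ := norm_pos_iff.mpr hz
  refine ⟨1 + |Real.log ‖z.1‖| + |G z.1 z.2 z.2|, by positivity, ?_, ?_, ?_⟩
  · rw [← Real.lt_log_iff_exp_lt hn]
    have h1 := neg_abs_le (Real.log ‖z.1‖)
    have h2 := abs_nonneg (G z.1 z.2 z.2)
    linarith
  · rw [← Real.log_lt_iff_lt_exp hn]
    have h1 := le_abs_self (Real.log ‖z.1‖)
    have h2 := abs_nonneg (G z.1 z.2 z.2)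
    linarith
  · have h1 := le_abs_self (G z.1 z.2 z.2)
    have h2 := abs_nonneg (G z.1 z.2 z.2)
    have h3 := abs_nonneg (Real.log ‖z.1‖)
    nlinarith

theorem good_scale {G : E5 → Bil E5} (hG : IsCyl G) {C : ℝ} {x v : E5} (h : Good G C (x, v))
    {t : ℝ} (ht : t ∈ Icc (0 : ℝ) 1) : Good G C (x, t • v) := by
  obtain ⟨h1, h2, h3⟩ := h
  refine ⟨h1, h2, ?_⟩
  have hx : x ∈ Om (Fin 5) := by
    intro h0
    have : (0 : ℝ) < ‖x‖ := (Real.exp_pos _).trans h1
    rw [h0, norm_zero] at this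
    exact lt_irrefl _ this
  have e : G x (t • v) (t • v) = t ^ 2 * G x v v := by
    rw [map_smul, map_smul, _root_.smul_apply, smul_eq_mul, smul_eq_mul]; ring
  show G x (t • v) (t • v) < C ^ 2
  rw [e]
  have h0 : 0 ≤ G x v v := by
    by_cases hv : v = 0
    · rw [hv]; simp
    · exact (hG.metric.pos x hx v hv).le
  have h4 : t ^ 2 ≤ 1 := by
    have := ht.1
    have := ht.2
    nlinarith
  have h5 : G x v v < C ^ 2 := h3
  nlinarith

theorem good_om {G : E5 → Bil E5} {C : ℝ} {z : E5 × E5} (h : Good G C z) : z.1 ∈ Om (Fin 5) := by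
  intro h0
  have : (0 : ℝ) < ‖z.1‖ := (Real.exp_pos _).trans h.1
  rw [h0, norm_zero] at this
  exact lt_irrefl _ this

theorem good_open {G : E5 → Bil E5} (hG : IsCyl G) {C : ℝ} {z : E5 × E5} (h : Good G C z) :
    ∀ᶠ z' in 𝓝 z, Good G C z' := by
  have hz : z.1 ∈ Om (Fin 5) := good_om h
  have hGc : ContinuousAt G z.1 :=
    (hG.metric.smooth.continuousOn).continuousAt (hG.metric.isOpen.mem_nhds hz)
  have hc : ContinuousAt (fun z' : E5 × E5 => G z'.1 z'.2 z'.2) z :=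
    ((hGc.comp' continuous_fst.continuousAt).clm_apply continuous_snd.continuousAt).clm_apply
      continuous_snd.continuousAt
  have hn : ContinuousAt (fun z' : E5 × E5 => ‖z'.1‖) z := continuous_fst.norm.continuousAt
  filter_upwards [hn.eventually_const_lt h.1, hn.eventually_lt_const h.2.1,
    hc.eventually_lt_const h.2.2] with z' h1 h2 h3
  exact ⟨h1, h2, h3⟩

/-- the local flows -/
def Loc (G : E5 → Bil E5) (ψ : ℝ → ℝ → E5 × E5 → E5 × E5) : Prop := ∀ C : ℝ, 0 < C →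
  ContDiffOn ℝ ∞ (fun q : ℝ × (E5 × E5) => ψ C q.1 q.2) (Icc 0 1 ×ˢ univ) ∧
    ∀ z : E5 × E5, Good G C z →
      ψ C 0 z = z ∧ ∀ t ∈ Icc (0 : ℝ) 1, (ψ C t z).1 ∈ Om (Fin 5) ∧
        HasDerivWithinAt (fun s => ψ C s z)
          ((ψ C t z).2, - chris G (ψ C t z).1 (ψ C t z).2 (ψ C t z).2) (Icc 0 1) t

variable {G : E5 → Bil E5} {ψ : ℝ → ℝ → E5 × E5 → E5 × E5}

theorem loc_fst (hψ : Loc G ψ) {C : ℝ} (hC : 0 < C) {z : E5 × E5} (hz : Good G C z) {t : ℝ}
    (ht : t ∈ Icc (0 : ℝ) 1) :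
    HasDerivWithinAt (fun s => (ψ C s z).1) (ψ C t z).2 (Icc 0 1) t := by
  have h := ((hψ C hC).2 z hz).2 t ht |>.2
  exact (ContinuousLinearMap.fst ℝ E5 E5).hasFDerivAt.comp_hasDerivWithinAt t h

theorem loc_snd (hψ : Loc G ψ) {C : ℝ} (hC : 0 < C) {z : E5 × E5} (hz : Good G C z) {t : ℝ}
    (ht : t ∈ Icc (0 : ℝ) 1) :
    HasDerivWithinAt (fun s => (ψ C s z).2)
      (- chris G (ψ C t z).1 (ψ C t z).2 (ψ C t z).2) (Icc 0 1) t := by
  have h := ((hψ C hC).2 z hz).2 t ht |>.2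
  exact (ContinuousLinearMap.snd ℝ E5 E5).hasFDerivAt.comp_hasDerivWithinAt t h

/-- rescaled trajectories -/
theorem loc_ray (hG : IsCyl G) (hunq : UnqStatement) (hψ : Loc G ψ) {C C' : ℝ} (hC : 0 < C)
    (hC' : 0 < C') {x v : E5} {t : ℝ} (ht : t ∈ Icc (0 : ℝ) 1) (hz : Good G C (x, v))
    (hz' : Good G C' (x, t • v)) : (ψ C' 1 (x, t • v)).1 = (ψ C t (x, v)).1 := by
  have hmap : ∀ s ∈ Icc (0 : ℝ) 1, t * s ∈ Icc (0 : ℝ) 1 := fun s hs =>
    ⟨mul_nonneg ht.1 hs.1, mul_le_one₀ ht.2 hs.1 hs.2⟩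
  have hlin : ∀ s, HasDerivWithinAt (fun s : ℝ => t * s) t (Icc 0 1) s := by
    intro s
    have := ((hasDerivAt_id s).const_mul t).hasDerivWithinAt (s := Icc 0 1)
    simpa using this
  have key := hunq G hG 1 zero_le_one (fun s => (ψ C' s (x, t • v)).1)
    (fun s => (ψ C (t * s) (x, v)).1) (fun s => (ψ C' s (x, t • v)).2)
    (fun s => t • (ψ C (t * s) (x, v)).2)
    (fun s hs => ⟨(((hψ C' hC').2 _ hz').2 s hs).1, (((hψ C hC).2 _ hz).2 (t * s) (hmap s hs)).1⟩)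
    (fun s hs => ⟨loc_fst hψ hC' hz' hs, loc_snd hψ hC' hz' hs⟩)
    (fun s hs => ⟨?_, ?_⟩) ?_ ?_ 1 (right_mem_Icc.mpr zero_le_one)
  · have h1 := key.1
    simp only [mul_one] at h1
    exact h1
  · exact (loc_fst hψ hC hz (hmap s hs)).scomp s (hlin s) hmap
  · have h1 := (loc_snd hψ hC hz (hmap s hs)).scomp s (hlin s) hmap
    have h2 := h1.const_smul t
    refine h2.congr_deriv ?_
    simp only [chris_smul_left, chris_smul_right, smul_neg]
  · show (ψ C' 0 (x, t • v)).1 = (ψ C (t * 0) (x, v)).1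
    rw [mul_zero, ((hψ C hC).2 _ hz).1, ((hψ C' hC').2 _ hz').1]
  · show (ψ C' 0 (x, t • v)).2 = t • (ψ C (t * 0) (x, v)).2
    rw [mul_zero, ((hψ C hC).2 _ hz).1, ((hψ C' hC').2 _ hz').1]

open Classical in
/-- the exponential map -/
def exMap (G : E5 → Bil E5) (ψ : ℝ → ℝ → E5 × E5 → E5 × E5) (z : E5 × E5) : E5 :=
  if hz : z.1 ≠ 0 then (ψ (good_exists G z hz).choose 1 z).1 else 0

theorem exMap_ray (hG : IsCyl G) (hunq : UnqStatement) (hψ : Loc G ψ) {C : ℝ} (hC : 0 < C)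
    {x v : E5} {t : ℝ} (ht : t ∈ Icc (0 : ℝ) 1) (hz : Good G C (x, v)) :
    exMap G ψ (x, t • v) = (ψ C t (x, v)).1 := by
  have hx0 : x ∈ Om (Fin 5) := good_om (z := (x, v)) hz
  have hx : (x, t • v).1 ≠ 0 := hx0
  unfold exMap
  rw [dif_pos hx]
  obtain ⟨h1, h2⟩ := (good_exists G (x, t • v) hx).choose_spec
  exact loc_ray hG hunq hψ hC h1 ht hz h2

theorem exMap_eq (hG : IsCyl G) (hunq : UnqStatement) (hψ : Loc G ψ) {C : ℝ} (hC : 0 < C)
    {z : E5 × E5} (hz : Good G C z) : exMap G ψ z = (ψ C 1 z).1 := by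
  have h := exMap_ray hG hunq hψ hC (x := z.1) (v := z.2) (t := 1)
    (right_mem_Icc.mpr zero_le_one) hz
  rw [one_smul] at h
  exact h

theorem exMap_smooth (hG : IsCyl G) (hunq : UnqStatement) (hψ : Loc G ψ) :
    ContDiffOn ℝ ∞ (exMap G ψ) (Om (Fin 5) ×ˢ univ) := by
  intro z hz
  obtain ⟨C, hC, hg⟩ := good_exists G z hz.1
  have h1 : ContDiffOn ℝ ∞ (fun z : E5 × E5 => ψ C 1 z) univ :=
    (hψ C hC).1.comp (s := univ) (f := fun z : E5 × E5 => ((1 : ℝ), z))
      (contDiffOn_const.prodMk contDiffOn_id)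
      (fun z _ => ⟨right_mem_Icc.mpr zero_le_one, mem_univ _⟩)
  have h2 : ContDiff ℝ ∞ (fun z : E5 × E5 => (ψ C 1 z).1) :=
    contDiff_fst.comp (contDiffOn_univ.mp h1)
  refine (h2.contDiffAt.congr_of_eventuallyEq ?_).contDiffWithinAt
  filter_upwards [good_open hG hg] with z' hz'
  exact exMap_eq hG hunq hψ hC hz'

theorem ray_smooth (hG : IsCyl G) (hunq : UnqStatement) (hψ : Loc G ψ) {x : E5}
    (hx : x ∈ Om (Fin 5)) (v : E5) : ContDiff ℝ ∞ (fun t : ℝ => exMap G ψ (x, t • v)) := by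
  rw [← contDiffOn_univ]
  exact (exMap_smooth hG hunq hψ).comp (s := univ) (f := fun t : ℝ => (x, t • v))
    (contDiffOn_const.prodMk (contDiff_id.smul contDiff_const).contDiffOn)
    (fun t _ => ⟨hx, mem_univ _⟩)

theorem exMap_mem (hG : IsCyl G) (hunq : UnqStatement) (hψ : Loc G ψ) {x : E5}
    (hx : x ∈ Om (Fin 5)) (v : E5) : exMap G ψ (x, v) ∈ Om (Fin 5) := by
  obtain ⟨C, hC, hg⟩ := good_exists G (x, v) hx
  rw [exMap_eq hG hunq hψ hC hg]
  exact (((hψ C hC).2 _ hg).2 1 (right_mem_Icc.mpr zero_le_one)).1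

/-- positive times -/
theorem geo_pos (hG : IsCyl G) (hunq : UnqStatement) (hψ : Loc G ψ) {x : E5}
    (hx : x ∈ Om (Fin 5)) (v : E5) {t : ℝ} (ht : 0 < t) :
    deriv (deriv (fun s : ℝ => exMap G ψ (x, s • v))) t =
      - chris G (exMap G ψ (x, t • v)) (deriv (fun s : ℝ => exMap G ψ (x, s • v)) t)
          (deriv (fun s : ℝ => exMap G ψ (x, s • v)) t) := by
  obtain ⟨T, hT⟩ : ∃ T : ℝ, T = t + 1 := ⟨_, rfl⟩
  have hT0 : 0 < T := by linarith
  obtain ⟨C, hC, hg⟩ := good_exists G (x, T • v) hx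
  have hsub : ∀ s ∈ Ioo 0 T, s / T ∈ Ioo (0 : ℝ) 1 := fun s hs =>
    ⟨div_pos hs.1 hT0, (div_lt_one hT0).mpr hs.2⟩
  have hf : ∀ s ∈ Ioo 0 T, exMap G ψ (x, s • v) = (ψ C (s / T) (x, T • v)).1 := by
    intro s hs
    have h1 := exMap_ray hG hunq hψ hC (t := s / T) (Ioo_subset_Icc_self (hsub s hs)) hg
    rw [smul_smul, div_mul_cancel₀ _ hT0.ne'] at h1
    exact h1
  have hdiv : ∀ s, HasDerivAt (fun s : ℝ => s / T) (1 / T) s := fun s =>
    (hasDerivAt_id s).div_const T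
  have hd1 : ∀ s ∈ Ioo 0 T, HasDerivAt (fun s : ℝ => exMap G ψ (x, s • v))
      ((1 / T) • (ψ C (s / T) (x, T • v)).2) s := by
    intro s hs
    have h1 : HasDerivAt (fun r => (ψ C r (x, T • v)).1) (ψ C (s / T) (x, T • v)).2 (s / T) :=
      (loc_fst hψ hC hg (Ioo_subset_Icc_self (hsub s hs))).hasDerivAt
        (Icc_mem_nhds (hsub s hs).1 (hsub s hs).2)
    have h2 : HasDerivAt (fun r : ℝ => (ψ C (r / T) (x, T • v)).1)
        ((1 / T) • (ψ C (s / T) (x, T • v)).2) s :=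
      HasDerivAt.scomp (h := fun r : ℝ => r / T) s h1 (hdiv s)
    refine h2.congr_of_eventuallyEq ?_
    filter_upwards [Ioo_mem_nhds hs.1 hs.2] with r hr
    exact hf r hr
  have hd2 : ∀ s ∈ Ioo 0 T, HasDerivAt (fun s : ℝ => (1 / T) • (ψ C (s / T) (x, T • v)).2)
      ((1 / T) • ((1 / T) • (- chris G (ψ C (s / T) (x, T • v)).1 (ψ C (s / T) (x, T • v)).2
        (ψ C (s / T) (x, T • v)).2))) s := by
    intro s hs
    have h1 : HasDerivAt (fun r => (ψ C r (x, T • v)).2) (- chris G (ψ C (s / T) (x, T • v)).1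
        (ψ C (s / T) (x, T • v)).2 (ψ C (s / T) (x, T • v)).2) (s / T) :=
      (loc_snd hψ hC hg (Ioo_subset_Icc_self (hsub s hs))).hasDerivAt
        (Icc_mem_nhds (hsub s hs).1 (hsub s hs).2)
    exact (HasDerivAt.scomp (h := fun r : ℝ => r / T) s h1 (hdiv s)).const_smul (1 / T)
  have htm : t ∈ Ioo 0 T := ⟨ht, by linarith⟩
  have hd3 : HasDerivAt (deriv (fun s : ℝ => exMap G ψ (x, s • v)))
      ((1 / T) • ((1 / T) • (- chris G (ψ C (t / T) (x, T • v)).1 (ψ C (t / T) (x, T • v)).2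
        (ψ C (t / T) (x, T • v)).2))) t := by
    refine (hd2 t htm).congr_of_eventuallyEq ?_
    filter_upwards [Ioo_mem_nhds htm.1 htm.2] with r hr
    exact (hd1 r hr).deriv
  rw [hd3.deriv, (hd1 t htm).deriv, hf t htm]
  simp only [chris_smul_left, chris_smul_right, smul_neg]

theorem chris_cont (hG : IsCyl G) {f g : ℝ → E5} (hf : Continuous f) (hg : Continuous g)
    (hm : ∀ t, f t ∈ Om (Fin 5)) : Continuous fun t => chris G (f t) (g t) (g t) := by
  have h1 := hG.metric.contDiffOn_chris.continuousOn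
  rw [← continuousOn_univ]
  exact h1.comp (s := univ) (f := fun t : ℝ => (f t, g t, g t))
    (hf.prodMk (hg.prodMk hg)).continuousOn (fun t _ => ⟨hm t, mem_univ _⟩)

theorem ray_cd1 (hG : IsCyl G) (hunq : UnqStatement) (hψ : Loc G ψ) {x : E5}
    (hx : x ∈ Om (Fin 5)) (v : E5) :
    ContDiff ℝ ∞ (deriv (fun t : ℝ => exMap G ψ (x, t • v))) :=
  (contDiff_infty_iff_deriv.mp (ray_smooth hG hunq hψ hx v)).2

/-- **Row EXB** -/
theorem exb (hexa : ExaStatement) (hunq : UnqStatement) : ExbStatement := by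
  intro G hG
  choose! ψ hψ0 using hexa G hG
  have hψ : Loc G ψ := by
    intro C hC
    obtain ⟨h1, h2⟩ := hψ0 C hC
    exact ⟨h1, fun z hz => h2 z hz.1 hz.2.1 hz.2.2⟩
  refine ⟨exMap G ψ, exMap_smooth hG hunq hψ, ?_, fun x hx v => exMap_mem hG hunq hψ hx v, ?_, ?_⟩
  · intro x hx
    obtain ⟨C, hC, hg⟩ := good_exists G (x, 0) hx
    have h1 := exMap_ray hG hunq hψ hC (t := 0) (left_mem_Icc.mpr zero_le_one) hg
    rw [zero_smul, ((hψ C hC).2 _ hg).1] at h1
    exact h1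
  · intro x hx v
    obtain ⟨C, hC, hg⟩ := good_exists G (x, v) hx
    have h0 : (0 : ℝ) ∈ Icc (0 : ℝ) 1 := left_mem_Icc.mpr zero_le_one
    have h1 := loc_fst hψ hC hg h0
    rw [((hψ C hC).2 _ hg).1] at h1
    have h2 : HasDerivWithinAt (fun t : ℝ => exMap G ψ (x, t • v)) v (Icc 0 1) 0 := by
      refine h1.congr (fun s hs => exMap_ray hG hunq hψ hC hs hg) ?_
      exact exMap_ray hG hunq hψ hC h0 hg
    have h3 : HasDerivAt (fun t : ℝ => exMap G ψ (x, t • v))
        (deriv (fun t : ℝ => exMap G ψ (x, t • v)) 0) 0 :=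
      (((ray_smooth hG hunq hψ hx v).differentiable (by simp)) 0).hasDerivAt
    exact (uniqueDiffOn_Icc (zero_lt_one) 0 h0).eq_deriv _ h3.hasDerivWithinAt h2
  · intro x hx v
    have hgeo0 : ∀ w : E5, ∀ t : ℝ, 0 ≤ t →
        deriv (deriv (fun s : ℝ => exMap G ψ (x, s • w))) t =
          - chris G (exMap G ψ (x, t • w)) (deriv (fun s : ℝ => exMap G ψ (x, s • w)) t)
            (deriv (fun s : ℝ => exMap G ψ (x, s • w)) t) := by
      intro w t ht
      have hcl : closure (Ioi (0 : ℝ)) = Ici 0 := closure_Ioi 0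
      have hF : Continuous (deriv (deriv (fun s : ℝ => exMap G ψ (x, s • w)))) :=
        ((contDiff_infty_iff_deriv.mp (ray_cd1 hG hunq hψ hx w)).2).continuous
      have hH : Continuous fun t : ℝ => - chris G (exMap G ψ (x, t • w))
          (deriv (fun s : ℝ => exMap G ψ (x, s • w)) t)
          (deriv (fun s : ℝ => exMap G ψ (x, s • w)) t) :=
        (chris_cont hG (ray_smooth hG hunq hψ hx w).continuous
          (ray_cd1 hG hunq hψ hx w).continuous
          (fun t => exMap_mem hG hunq hψ hx _)).neg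
      have heq : EqOn (deriv (deriv (fun s : ℝ => exMap G ψ (x, s • w))))
          (fun t : ℝ => - chris G (exMap G ψ (x, t • w))
          (deriv (fun s : ℝ => exMap G ψ (x, s • w)) t)
          (deriv (fun s : ℝ => exMap G ψ (x, s • w)) t)) (Ioi 0) :=
        fun s hs => geo_pos hG hunq hψ hx w hs
      have := heq.closure hF hH
      rw [hcl] at this
      exact this ht
    intro t
    rcases le_total 0 t with ht | ht
    · exact hgeo0 v t ht
    · have hflip : (fun s : ℝ => exMap G ψ (x, s • v)) =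
          fun s : ℝ => (fun r : ℝ => exMap G ψ (x, r • (-v))) (-s) := by
        funext s
        simp only [smul_neg, neg_smul, neg_neg]
      have hd : deriv (fun s : ℝ => exMap G ψ (x, s • v)) =
          fun s : ℝ => - deriv (fun r : ℝ => exMap G ψ (x, r • (-v))) (-s) := by
        rw [hflip]
        funext s
        exact deriv_comp_neg (fun r : ℝ => exMap G ψ (x, r • (-v))) s
      have hdd : deriv (deriv (fun s : ℝ => exMap G ψ (x, s • v))) t =
          deriv (deriv (fun r : ℝ => exMap G ψ (x, r • (-v)))) (-t) := by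
        rw [hd]
        have h1 : deriv (fun s : ℝ => - deriv (fun r : ℝ => exMap G ψ (x, r • (-v))) (-s)) t =
            - deriv (fun s : ℝ => deriv (fun r : ℝ => exMap G ψ (x, r • (-v))) (-s)) t :=
          by rw [deriv.fun_neg]
        rw [h1, deriv_comp_neg, neg_neg]
      have h2 := hgeo0 (-v) (-t) (by linarith)
      rw [hdd, h2, hd]
      have h3 : (-t) • (-v) = t • v := by rw [smul_neg, neg_smul, neg_neg]
      rw [h3]
      have h4 : ∀ w : E5, chris G (exMap G ψ (x, t • v)) (-w) (-w) =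
          chris G (exMap G ψ (x, t • v)) w w := by
        intro w
        have h5 : -w = (-1 : ℝ) • w := by rw [neg_smul, one_smul]
        rw [h5, chris_smul_left, chris_smul_right, smul_smul]
        norm_num
      show _ = - chris G (exMap G ψ (x, t • v)) (-_) (-_)
      rw [h4]

end Pool.Agent.MVS.H86
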