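import Pool.Agent.MVS.Stmts

/-!
# Row ROT of the squad MVS (problem MP_33f2b9_gt)
-/

noncomputable section
open scoped ContDiff Topology RealInnerProductSpace
open Set MeasureTheory
namespace Pool.Agent.MVS.H86
open Pool.Agent.RF Pool.Agent.MVS

theorem pP_apply (κ : Finset (Fin 5)) (x : E5) (i : Fin 5) :
    pP κ x i = if i ∈ κ then x i else 0 := by
  unfold pP
  rw [_root_.sum_apply]
  have : ∀ j : Fin 5, ((EuclideanSpace.proj j : E5 →L[ℝ] ℝ).smulRight (eb j) x : E5) i =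
      if i = j then x i else 0 := by
    intro j
    by_cases h : i = j
    · subst h; simp [eb]
    · simp [eb, h]
  rw [WithLp.ofLp_sum, Finset.sum_apply, Finset.sum_congr rfl fun j _ => this j]
  simp

theorem Rt_0 (a b t : ℝ) (x : E5) : Rt a b t x 0 = Real.cos (a * t) * x 0 - Real.sin (a * t) * x 1 := by
  simp [Rt, eb]; ring
theorem Rt_1 (a b t : ℝ) (x : E5) : Rt a b t x 1 = Real.sin (a * t) * x 0 + Real.cos (a * t) * x 1 := by
  simp [Rt, eb]; ring
theorem Rt_2 (a b t : ℝ) (x : E5) : Rt a b t x 2 = Real.cos (b * t) * x 2 - Real.sin (b * t) * x 3 := by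
  simp [Rt, eb]; ring
theorem Rt_3 (a b t : ℝ) (x : E5) : Rt a b t x 3 = Real.sin (b * t) * x 2 + Real.cos (b * t) * x 3 := by
  simp [Rt, eb]; ring
theorem Rt_4 (a b t : ℝ) (x : E5) : Rt a b t x 4 = x 4 := by
  simp [Rt, eb]
theorem Ag_0 (a b : ℝ) (x : E5) : Ag a b x 0 = - (a * x 1) := by
  simp [Ag, eb]
theorem Ag_1 (a b : ℝ) (x : E5) : Ag a b x 1 = a * x 0 := by
  simp [Ag, eb]
theorem Ag_2 (a b : ℝ) (x : E5) : Ag a b x 2 = - (b * x 3) := by
  simp [Ag, eb]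
theorem Ag_3 (a b : ℝ) (x : E5) : Ag a b x 3 = b * x 2 := by
  simp [Ag, eb]
theorem Ag_4 (a b : ℝ) (x : E5) : Ag a b x 4 = 0 := by
  simp [Ag, eb]

theorem ext5 (x y : E5) (h0 : x 0 = y 0) (h1 : x 1 = y 1) (h2 : x 2 = y 2) (h3 : x 3 = y 3)
    (h4 : x 4 = y 4) : x = y := by
  ext i
  fin_cases i <;> assumption

theorem inner5 (x y : E5) : ⟪x, y⟫ = x 0 * y 0 + x 1 * y 1 + x 2 * y 2 + x 3 * y 3 + x 4 * y 4 := by
  rw [PiLp.inner_apply, Fin.sum_univ_five]
  simp [mul_comm]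

theorem cd (a b : ℝ) : ContDiff ℝ ∞ (fun q : ℝ × E5 => Rt a b q.1 q.2) := by
  have h : ContDiff ℝ ∞ (fun t : ℝ => Rt a b t) := by
    unfold Rt
    fun_prop
  exact (h.comp contDiff_fst).clm_apply contDiff_snd


theorem pN_apply (κ : Finset (Fin 5)) (x : E5) (i : Fin 5) :
    pN κ x i = if i ∈ κ then 0 else x i := by
  unfold pN
  rw [pP_apply]
  by_cases h : i ∈ κ
  · simp [h]
  · simp [h]

theorem inner_sum5 (x y : E5) : ⟪x, y⟫ = ∑ i, x i * y i := by
  rw [PiLp.inner_apply]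
  refine Finset.sum_congr rfl fun i _ => ?_
  simp [mul_comm]

theorem Rt_deriv (a b t : ℝ) (x : E5) :
    HasDerivAt (fun s : ℝ => Rt a b s x) (Ag a b (Rt a b t x)) t := by
  have hca : HasDerivAt (fun s : ℝ => Real.cos (a * s)) (-Real.sin (a * t) * a) t :=
    ((hasDerivAt_id t).const_mul a).cos.congr_deriv (by simp)
  have hsa : HasDerivAt (fun s : ℝ => Real.sin (a * s)) (Real.cos (a * t) * a) t :=
    ((hasDerivAt_id t).const_mul a).sin.congr_deriv (by simp)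
  have hcb : HasDerivAt (fun s : ℝ => Real.cos (b * s)) (-Real.sin (b * t) * b) t :=
    ((hasDerivAt_id t).const_mul b).cos.congr_deriv (by simp)
  have hsb : HasDerivAt (fun s : ℝ => Real.sin (b * s)) (Real.cos (b * t) * b) t :=
    ((hasDerivAt_id t).const_mul b).sin.congr_deriv (by simp)
  have h := ((((hca.smul_const (x 0 • (eb 0 : E5) + x 1 • eb 1)).add
    (hsa.smul_const (x 0 • (eb 1 : E5) - x 1 • eb 0))).add
    (hcb.smul_const (x 2 • (eb 2 : E5) + x 3 • eb 3))).add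
    (hsb.smul_const (x 2 • (eb 3 : E5) - x 3 • eb 2))).add_const (x 4 • (eb 4 : E5))
  have hf : (fun s : ℝ => Rt a b s x) = fun s => Real.cos (a * s) • (x 0 • (eb 0 : E5) + x 1 • eb 1)
      + Real.sin (a * s) • (x 0 • (eb 1 : E5) - x 1 • eb 0)
      + Real.cos (b * s) • (x 2 • (eb 2 : E5) + x 3 • eb 3)
      + Real.sin (b * s) • (x 2 • (eb 3 : E5) - x 3 • eb 2) + x 4 • (eb 4 : E5) := by
    funext s
    simp [Rt]
  rw [hf]
  refine h.congr_deriv ?_
  apply ext5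
  · rw [Ag_0, Rt_1]; simp [eb]; ring
  · rw [Ag_1, Rt_0]; simp [eb]; ring
  · rw [Ag_2, Rt_3]; simp [eb]; ring
  · rw [Ag_3, Rt_2]; simp [eb]; ring
  · rw [Ag_4]; simp [eb]

theorem Rt_zero (a b : ℝ) (x : E5) : Rt a b 0 x = x := by
  apply ext5
  · rw [Rt_0]; simp
  · rw [Rt_1]; simp
  · rw [Rt_2]; simp
  · rw [Rt_3]; simp
  · rw [Rt_4]

theorem Rt_inner (a b t : ℝ) (x y : E5) : ⟪Rt a b t x, Rt a b t y⟫ = ⟪x, y⟫ := by
  rw [inner5, inner5, Rt_0, Rt_0, Rt_1, Rt_1, Rt_2, Rt_2, Rt_3, Rt_3, Rt_4, Rt_4]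
  have h1 := Real.sin_sq_add_cos_sq (a * t)
  have h2 := Real.sin_sq_add_cos_sq (b * t)
  linear_combination (x 0 * y 0 + x 1 * y 1) * h1 + (x 2 * y 2 + x 3 * y 3) * h2

theorem Rt_neg (a b t : ℝ) (x : E5) : Rt a b (-t) (Rt a b t x) = x := by
  have h1 := Real.sin_sq_add_cos_sq (a * t)
  have h2 := Real.sin_sq_add_cos_sq (b * t)
  apply ext5
  · rw [Rt_0, Rt_0, Rt_1, mul_neg, Real.cos_neg, Real.sin_neg]
    linear_combination (x 0) * h1
  · rw [Rt_1, Rt_0, Rt_1, mul_neg, Real.cos_neg, Real.sin_neg]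
    linear_combination (x 1) * h1
  · rw [Rt_2, Rt_2, Rt_3, mul_neg, Real.cos_neg, Real.sin_neg]
    linear_combination (x 2) * h2
  · rw [Rt_3, Rt_2, Rt_3, mul_neg, Real.cos_neg, Real.sin_neg]
    linear_combination (x 3) * h2
  · rw [Rt_4, Rt_4]

theorem cases_of (κ : Finset (Fin 5)) (a b : ℝ) (h : Cs κ a b) :
    (∀ x, Ag a b x = 0 ↔ pP κ x = 0) ∧ (∀ x, pP κ (Ag a b x) = Ag a b x) ∧
    (∀ t x, pP κ x = 0 → Rt a b t x = x) := by
  have hz : ∀ y : E5, y = 0 ↔ y 0 = 0 ∧ y 1 = 0 ∧ y 2 = 0 ∧ y 3 = 0 ∧ y 4 = 0 := by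
    intro y
    constructor
    · intro h; subst h; simp
    · rintro ⟨h0, h1, h2, h3, h4⟩
      exact ext5 y 0 h0 h1 h2 h3 h4
  rcases h with ⟨hk, ha, hb⟩ | ⟨hk, ha, hb⟩ | ⟨hk, ha, hb⟩
  · subst hk
    refine ⟨fun x => ?_, fun x => ?_, fun t x hx => ?_⟩
    · rw [hz, hz, Ag_0, Ag_1, Ag_2, Ag_3, Ag_4]
      simp only [pP_apply]
      simp [ha, hb]
      tauto
    · apply ext5 <;> rw [pP_apply] <;> simp [Ag_4]
    · rw [hz] at hx
      simp only [pP_apply] at hx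
      simp at hx
      obtain ⟨h0, h1, h2, h3⟩ := hx
      apply ext5
      · rw [Rt_0, h0, h1]; ring
      · rw [Rt_1, h0, h1]; ring
      · rw [Rt_2, h2, h3]; ring
      · rw [Rt_3, h2, h3]; ring
      · rw [Rt_4]
  · subst hk
    subst hb
    refine ⟨fun x => ?_, fun x => ?_, fun t x hx => ?_⟩
    · rw [hz, hz, Ag_0, Ag_1, Ag_2, Ag_3, Ag_4]
      simp only [pP_apply]
      simp [ha]
      tauto
    · apply ext5 <;> rw [pP_apply] <;> simp [Ag_4, Ag_2, Ag_3]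
    · rw [hz] at hx
      simp only [pP_apply] at hx
      simp at hx
      obtain ⟨h0, h1⟩ := hx
      apply ext5
      · rw [Rt_0, h0, h1]; ring
      · rw [Rt_1, h0, h1]; ring
      · rw [Rt_2]; simp
      · rw [Rt_3]; simp
      · rw [Rt_4]
  · subst hk
    subst ha
    refine ⟨fun x => ?_, fun x => ?_, fun t x hx => ?_⟩
    · rw [hz, hz, Ag_0, Ag_1, Ag_2, Ag_3, Ag_4]
      simp only [pP_apply]
      simp [hb]
      tauto
    · apply ext5 <;> rw [pP_apply] <;> simp [Ag_4, Ag_0, Ag_1]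
    · rw [hz] at hx
      simp only [pP_apply] at hx
      simp at hx
      obtain ⟨h0, h1⟩ := hx
      apply ext5
      · rw [Rt_0]; simp
      · rw [Rt_1]; simp
      · rw [Rt_2, h0, h1]; ring
      · rw [Rt_3, h0, h1]; ring
      · rw [Rt_4]

/-- **Row ROT** -/
theorem rot : RotStatement := by
  refine ⟨?_, ?_, ?_, ?_, ?_, ?_, ?_, ?_, Rt_zero, Rt_inner, Rt_neg, cd, Rt_deriv, ?_⟩
  · intro κ x
    ext i
    change pN κ x i + pP κ x i = x i
    rw [pN_apply, pP_apply]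
    split_ifs <;> simp
  · intro κ x y
    rw [inner_sum5]
    refine Finset.sum_eq_zero fun i _ => ?_
    rw [pN_apply, pP_apply]
    split_ifs <;> simp
  · intro κ x y
    rw [inner_sum5, inner_sum5]
    refine Finset.sum_congr rfl fun i _ => ?_
    rw [pN_apply, pN_apply]
    split_ifs <;> simp
  · intro κ x y
    rw [inner_sum5, inner_sum5]
    refine Finset.sum_congr rfl fun i _ => ?_
    rw [pP_apply, pP_apply]
    split_ifs <;> simp
  · intro κ x
    ext i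
    rw [pP_apply, pP_apply]
    split_ifs <;> simp
  · intro κ x
    ext i
    rw [pN_apply, pN_apply]
    split_ifs <;> simp
  · intro κ x
    ext i
    rw [pP_apply, pN_apply]
    split_ifs <;> simp
  · intro κ x
    ext i
    rw [pN_apply, pP_apply]
    split_ifs <;> simp
  · intro κ a b h
    obtain ⟨h1, h2, h3⟩ := cases_of κ a b h
    refine ⟨h1, h2, h3, ?_⟩
    intro x hx
    rw [← h1]
    have hd := Rt_deriv a b 0 x
    rw [Rt_zero] at hd
    have hc : (fun s : ℝ => Rt a b s x) = fun _ => x := funext hx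
    rw [hc] at hd
    exact hd.unique (hasDerivAt_const 0 x)

end Pool.Agent.MVS.H86
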